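import Mathlib

open Classical

namespace Pool.Agent.H202Z.GR

/-- The probability of the graph property `Q` in the binomial random graph `G(n, p)`. -/
noncomputable def Pr (n : ℕ) (p : ℝ) (Q : SimpleGraph (Fin n) → Prop) : ℝ :=
  ∑ G : SimpleGraph (Fin n),
    if Q G then p ^ G.edgeSet.ncard * (1 - p) ^ (n.choose 2 - G.edgeSet.ncard) else 0

/-- The vertex set of the `k`-core: the union of all vertex sets `S` such that every vertex of `S`
has at least `k` neighbours in `S`. -/
noncomputable def core {n : ℕ} (k : ℕ) (G : SimpleGraph (Fin n)) : Finset (Fin n) :=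
  Finset.univ.filter (fun v => ∃ S : Finset (Fin n), v ∈ S ∧
    ∀ w ∈ S, k ≤ (S.filter (G.Adj w)).card)

end Pool.Agent.H202Z.GR
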