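import Pool.Agent.H135R2.VS.Final

open Pool.Agent.H135R2.VS Matrix

namespace Pool.Agent.H202Z.GR

variable {V : Type*} {d : ℕ} [Fintype V] [DecidableEq V]

lemma en_single (ω : V → V → ℝ) (y : V → ℝ) (v : V) :
    en ω y (Pi.single v 1) = ∑ j, (ω v j + ω j v) * (y v - y j) := by
  unfold en
  have h : ∀ i j, ω i j * ((y i - y j) * ((Pi.single v 1 : V → ℝ) i - (Pi.single v 1 : V → ℝ) j)) =
      (if i = v then ω i j * (y i - y j) else 0) - (if j = v then ω i j * (y i - y j) else 0) := by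
    intro i j
    simp only [Pi.single_apply]
    split_ifs <;> ring
  simp only [h, Finset.sum_sub_distrib]
  rw [Finset.sum_comm (f := fun i j => if i = v then ω i j * (y i - y j) else 0)]
  simp only [Finset.sum_ite_eq', Finset.mem_univ, if_true]
  rw [← Finset.sum_sub_distrib]
  exact Finset.sum_congr rfl fun j _ => by ring

lemma ind {p : Conf d V} (hp : Gen p) (hV : d + 1 ≤ Fintype.card V) (v : V) (c : V → ℝ)
    (J : Finset V) (hJ : J.card ≤ d) (hc : ∀ j, j ∉ J → c j = 0)
    (h : ∀ k, ∑ j, c j * (p v k - p j k) = 0) : ∀ j, j ≠ v → c j = 0 := by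
  intro j0 hj0
  have h1 : (insert v J).card ≤ d + 1 := (Finset.card_insert_le _ _).trans (by omega)
  obtain ⟨X, hX1, -, hX2⟩ := Finset.exists_subsuperset_card_eq (Finset.subset_univ (insert v J))
    h1 (by rwa [Finset.card_univ])
  obtain ⟨a, b, hab⟩ := hp.affine_surj hX2 (fun i => if i = j0 then 1 else 0)
  have hv : a ⬝ᵥ p v + b = 0 := by
    rw [hab v (hX1 (Finset.mem_insert_self _ _)), if_neg (Ne.symm hj0)]
  have h2 : ∑ j, c j * (a ⬝ᵥ p v - a ⬝ᵥ p j) = 0 := by
    have : ∀ j, c j * (a ⬝ᵥ p v - a ⬝ᵥ p j) = ∑ k, a k * (c j * (p v k - p j k)) := by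
      intro j
      simp only [dotProduct, ← Finset.sum_sub_distrib, Finset.mul_sum]
      exact Finset.sum_congr rfl fun k _ => by ring
    simp only [this]
    rw [Finset.sum_comm]
    refine Finset.sum_eq_zero fun k _ => ?_
    rw [← Finset.mul_sum, h k, mul_zero]
  rw [Finset.sum_eq_single j0] at h2
  · by_cases hj : j0 ∈ J
    · have h3 := hab j0 (hX1 (Finset.mem_insert_of_mem hj))
      rw [if_pos rfl] at h3
      have h4 : a ⬝ᵥ p v - a ⬝ᵥ p j0 = -1 := by linarith
      rw [h4] at h2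
      linarith
    · exact hc j0 hj
  · intro j _ hj
    by_cases hjJ : j ∈ J
    · have h3 := hab j (hX1 (Finset.mem_insert_of_mem hjJ))
      rw [if_neg hj] at h3
      have h4 : a ⬝ᵥ p v - a ⬝ᵥ p j = 0 := by linarith
      rw [h4, mul_zero]
    · rw [hc j hjJ, zero_mul]
  · simp

lemma stress_zero {H : SimpleGraph V} [DecidableRel H.Adj] {p : Conf d V} (hp : Gen p)
    (hV : d + 1 ≤ Fintype.card V) {x y z a : V} (hxy : H.Adj x y) (hyz : H.Adj y z)
    (hxz : H.Adj x z) (hza : H.Adj z a) (hax : a ≠ x) (hay : a ≠ y) (hxa : ¬ H.Adj x a)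
    (hya : ¬ H.Adj y a)
    (dx : (Finset.univ.filter (H.Adj x)).card ≤ d + 1)
    (dy : (Finset.univ.filter (H.Adj y)).card ≤ d + 1)
    (dz : (Finset.univ.filter (H.Adj z)).card ≤ d + 1)
    (σ : V → V → ℝ) (hs : ∀ i j, σ i j = σ j i) (h0 : ∀ i j, ¬ H.Adj i j → σ i j = 0)
    (he : ∀ i k, ∑ j, σ i j * (p i k - p j k) = 0) : ∀ j, σ x j = 0 := by
  -- a general tool
  have tool : ∀ (v w : V) (c : V → ℝ), H.Adj v w → (Finset.univ.filter (H.Adj v)).card ≤ d + 1 →
      (∀ j, ¬ H.Adj v j → c j = 0) → c w = 0 → (∀ k, ∑ j, c j * (p v k - p j k) = 0) →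
      ∀ j, c j = 0 := by
    intro v w c hvw dv hc hw h j
    by_cases hj : j = v
    · exact hc j (by rw [hj]; exact H.loopless.irrefl _)
    refine ind hp hV v c ((Finset.univ.filter (H.Adj v)).erase w) ?_ ?_ h j hj
    · rw [Finset.card_erase_of_mem (by simpa using hvw)]; omega
    · intro i hi
      by_cases hiw : i = w
      · rw [hiw]; exact hw
      · exact hc i (fun h' => hi (by simp [hiw, h']))
  by_cases hxy0 : σ x y = 0
  · exact tool x y (σ x) hxy dx (h0 x) hxy0 (he x)
  exfalso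
  let τ : V → V → ℝ := fun i j => σ i j / σ x y
  have τs : ∀ i j, τ i j = τ j i := fun i j => by simp only [τ, hs i j]
  have τ0 : ∀ i j, ¬ H.Adj i j → τ i j = 0 := fun i j h => by simp only [τ, h0 i j h, zero_div]
  have τe : ∀ i k, ∑ j, τ i j * (p i k - p j k) = 0 := by
    intro i k
    have : ∀ j, τ i j * (p i k - p j k) = (σ x y)⁻¹ * (σ i j * (p i k - p j k)) := by
      intro j; simp only [τ]; ring
    simp only [this]
    rw [← Finset.mul_sum, he, mul_zero]
  have τ1 : τ x y = 1 := div_self hxy0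
  have haz : a ≠ z := fun h => H.loopless.irrefl _ (h ▸ hza)
  obtain ⟨D, hD⟩ := hp.der (fun i k => if i = a then p z k - p x k else 0)
  have dτe : ∀ i, i ≠ a → ∀ k, ∑ j, D (τ i j) * (p i k - p j k) = τ i a * (p z k - p x k) := by
    intro i hi k
    have h1 := congrArg D (τe i k)
    rw [map_zero, map_sum] at h1
    have h2 : ∀ j, D (τ i j * (p i k - p j k)) =
        D (τ i j) * (p i k - p j k) - (if j = a then τ i j * (p z k - p x k) else 0) := by
      intro j
      rw [Derivation.leibniz, map_sub, hD, hD, if_neg hi]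
      simp only [smul_eq_mul]
      split_ifs <;> ring
    simp only [h2, Finset.sum_sub_distrib, Finset.sum_ite_eq', Finset.mem_univ, if_true] at h1
    linarith
  have D0 : ∀ i j, ¬ H.Adj i j → D (τ i j) = 0 := fun i j h => by rw [τ0 i j h, map_zero]
  have Dxy : D (τ x y) = 0 := by rw [τ1]; exact D.map_one_eq_zero
  have Dx : ∀ j, D (τ x j) = 0 := by
    refine tool x y (fun j => D (τ x j)) hxy dx (D0 x) Dxy fun k => ?_
    rw [dτe x hax.symm, τ0 x a hxa, zero_mul]
  have Dy : ∀ j, D (τ y j) = 0 := by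
    refine tool y x (fun j => D (τ y j)) hxy.symm dy (D0 y) (by simp only [τs y x]; exact Dxy)
      fun k => ?_
    rw [dτe y hay.symm, τ0 y a hya, zero_mul]
  have hxy' : x ≠ y := hxy.ne
  have Dz : ∀ j, D (τ z j) - (if j = x then τ z a else 0) = 0 := by
    refine tool z y (fun j => D (τ z j) - (if j = x then τ z a else 0)) hyz.symm dz ?_ ?_
      fun k => ?_
    · intro j hj
      rw [D0 z j hj, if_neg (fun h => hj (by rw [h]; exact hxz.symm)), sub_zero]
    · simp only [τs z y, Dy z, if_neg hxy'.symm, sub_zero]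
    · simp only [sub_mul, Finset.sum_sub_distrib, ite_mul, zero_mul, Finset.sum_ite_eq',
        Finset.mem_univ, if_true]
      rw [dτe z haz.symm, sub_self]
  have τza : τ z a = 0 := by
    have := Dz x
    rw [if_pos rfl, τs z x, Dx z] at this
    linarith
  have τz : ∀ j, τ z j = 0 := tool z a (τ z) hza dz (τ0 z) τza (τe z)
  have τx : ∀ j, τ x j = 0 := tool x z (τ x) hxz dx (τ0 x) (by rw [τs x z]; exact τz x) (τe x)
  rw [τx y] at τ1
  exact zero_ne_one τ1

theorem not_rigid {H : SimpleGraph V} [DecidableRel H.Adj] (hd : 0 < d)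
    (hV : d + 2 ≤ Fintype.card V) {x y z a : V} (hxy : H.Adj x y) (hyz : H.Adj y z)
    (hxz : H.Adj x z) (hza : H.Adj z a) (hax : a ≠ x) (hay : a ≠ y) (hxa : ¬ H.Adj x a)
    (hya : ¬ H.Adj y a)
    (dx : (Finset.univ.filter (H.Adj x)).card ≤ d + 1)
    (dy : (Finset.univ.filter (H.Adj y)).card ≤ d + 1)
    (dz : (Finset.univ.filter (H.Adj z)).card ≤ d + 1) : ¬ GloballyRigid d H := by
  intro hG
  obtain ⟨p, ω, hp, -, hω, hK⟩ := ght_exists (H := H) hd (by omega) (fun p hp => hG.coord p hp)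
  have hz := stress_zero hp (by omega) hxy hyz hxz hza hax hay hxa hya dx dy dz
    (fun i j => ω i j + ω j i) (fun i j => add_comm _ _)
    (fun i j h => by rw [hω.1 i j h, hω.1 j i (fun h' => h h'.symm), add_zero])
    (fun i k => by
      have := hω.2 k (Pi.single i 1)
      rwa [en_single] at this)
  have hmem : (Pi.single x 1 : V → ℝ) ∈ Ker ω := by
    intro w
    rw [en_symm, en_single]
    exact Finset.sum_eq_zero fun j _ => by rw [hz j, zero_mul]
  obtain ⟨a', b', hab⟩ := hK _ hmem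
  have h1 := hp.affine_inj (X := Finset.univ.erase x) (a := a') (b := b')
    (by rw [Finset.card_erase_of_mem (Finset.mem_univ _), Finset.card_univ]; omega)
    (fun i hi => by rw [← hab i, Pi.single_eq_of_ne (Finset.ne_of_mem_erase hi)])
  have h2 := hab x
  rw [h1.1, h1.2] at h2
  simp at h2

end Pool.Agent.H202Z.GR
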