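import Pool.Agent.H202Z.GR.Prob
import Pool.Agent.H202Z.GR.Rigid

open Classical Pool.Agent.H135R2.VS

namespace Pool.Agent.H202Z.GR

variable {n : ℕ}

abbrev Tr (n : ℕ) := Fin n × Fin n × Fin n

def TT (t : Tr n) : Finset (Fin n) := {t.1, t.2.1, t.2.2}

def Dist (t : Tr n) : Prop := t.1 ≠ t.2.1 ∧ t.2.1 ≠ t.2.2 ∧ t.1 ≠ t.2.2

structure Good (d : ℕ) (G : SimpleGraph (Fin n)) (t : Tr n) : Prop where
  xy : G.Adj t.1 t.2.1
  yz : G.Adj t.2.1 t.2.2
  xz : G.Adj t.1 t.2.2
  deg : ∀ u ∈ TT t, (Finset.univ.filter (G.Adj u)).card = d + 1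
  K : ∃ K : Finset (Fin n), Disjoint K (TT t) ∧ (∀ w ∈ K, d + 1 ≤ (K.filter (G.Adj w)).card) ∧
    ∀ u ∈ TT t, ∀ v, G.Adj u v → v ∈ TT t ∨ v ∈ K
  priv : ∃ a, G.Adj t.2.2 a ∧ a ≠ t.1 ∧ a ≠ t.2.1 ∧ ¬ G.Adj t.1 a ∧ ¬ G.Adj t.2.1 a

lemma subset_core {k : ℕ} {G : SimpleGraph (Fin n)} {S : Finset (Fin n)}
    (h : ∀ w ∈ S, k ≤ (S.filter (G.Adj w)).card) : S ⊆ core k G := fun v hv => by
  simp only [core, Finset.mem_filter, Finset.mem_univ, true_and]
  exact ⟨S, hv, h⟩

lemma core_deg {k : ℕ} {G : SimpleGraph (Fin n)} {w : Fin n} (hw : w ∈ core k G) :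
    k ≤ ((core k G).filter (G.Adj w)).card := by
  have hw' := hw
  simp only [core, Finset.mem_filter, Finset.mem_univ, true_and] at hw'
  obtain ⟨S, hS, h⟩ := hw'
  exact (h w hS).trans (Finset.card_le_card (Finset.filter_subset_filter _ (subset_core h)))

lemma Good.adj {d : ℕ} {G : SimpleGraph (Fin n)} {t : Tr n} (h : Good d G t) {u v : Fin n}
    (hu : u ∈ TT t) (hv : v ∈ TT t) (huv : u ≠ v) : G.Adj u v := by
  simp only [TT, Finset.mem_insert, Finset.mem_singleton] at hu hv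
  rcases hu with rfl | rfl | rfl <;> rcases hv with rfl | rfl | rfl <;>
    first | exact absurd rfl huv | exact h.xy | exact h.yz | exact h.xz | exact h.xy.symm |
      exact h.yz.symm | exact h.xz.symm

lemma Good.subset {d : ℕ} {G : SimpleGraph (Fin n)} {t t' : Tr n} (h : Good d G t)
    (h' : Good d G t') (hd : ¬ Disjoint (TT t) (TT t')) : TT t' ⊆ TT t := by
  obtain ⟨u, hu, hu'⟩ := Finset.not_disjoint_iff.1 hd
  intro y hy
  by_contra hyT
  have hne : u ≠ y := fun e => hyT (e ▸ hu)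
  have hadj := h'.adj hu' hy hne
  obtain ⟨K, hK1, hK2, hK3⟩ := h.K
  have hyK : y ∈ K := (hK3 u hu y hadj).resolve_left hyT
  have h1 := hK2 y hyK
  have h2 : K.filter (G.Adj y) ⊆ (Finset.univ.filter (G.Adj y)).erase u := by
    intro v hv
    rw [Finset.mem_filter] at hv
    refine Finset.mem_erase.2 ⟨?_, by simpa using hv.2⟩
    rintro rfl
    exact Finset.disjoint_left.1 hK1 hv.1 hu
  have h3 := Finset.card_le_card h2
  rw [Finset.card_erase_of_mem (by simpa using hadj.symm), h'.deg y hy] at h3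
  omega

lemma Good.not_rigid {d : ℕ} (hd : 0 < d) {G : SimpleGraph (Fin n)} {t : Tr n} (h : Good d G t) :
    ¬ GloballyRigid d (G.induce (core (d + 1) G : Set (Fin n))) := by
  obtain ⟨K, hK1, hK2, hK3⟩ := h.K
  obtain ⟨a, ha1, ha2, ha3, ha4, ha5⟩ := h.priv
  have hsub : TT t ∪ K ⊆ core (d + 1) G := by
    refine subset_core fun w hw => ?_
    rcases Finset.mem_union.1 hw with hw | hw
    · rw [← h.deg w hw]
      refine Finset.card_le_card fun v hv => ?_
      have hv' : G.Adj w v := by simpa using hv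
      exact Finset.mem_filter.2 ⟨Finset.mem_union.2 (hK3 w hw v hv'), hv'⟩
    · exact (hK2 w hw).trans
        (Finset.card_le_card (Finset.filter_subset_filter _ Finset.subset_union_right))
  have hx : t.1 ∈ TT t := by simp [TT]
  have hy : t.2.1 ∈ TT t := by simp [TT]
  have hz : t.2.2 ∈ TT t := by simp [TT]
  have mem : ∀ u ∈ TT t, u ∈ (core (d + 1) G : Set (Fin n)) := fun u hu =>
    hsub (Finset.mem_union_left _ hu)
  have ham : a ∈ (core (d + 1) G : Set (Fin n)) :=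
    hsub (Finset.mem_union.2 (hK3 _ hz a ha1))
  have dg : ∀ u (hu : u ∈ TT t), (Finset.univ.filter
      ((G.induce (core (d + 1) G : Set (Fin n))).Adj ⟨u, mem u hu⟩)).card ≤ d + 1 := by
    intro u hu
    refine le_trans ?_ (h.deg u hu).le
    refine Finset.card_le_card_of_injOn Subtype.val ?_ Subtype.val_injective.injOn
    intro v hv
    simpa using hv
  have hcard : d + 2 ≤ Fintype.card (core (d + 1) G : Set (Fin n)) := by
    have h1 := core_deg (mem _ hx)
    have h2 : (core (d + 1) G).filter (G.Adj t.1) ⊆ (core (d + 1) G).erase t.1 := by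
      intro v hv
      rw [Finset.mem_filter] at hv
      exact Finset.mem_erase.2 ⟨hv.2.ne.symm, hv.1⟩
    have h3 := Finset.card_le_card h2
    rw [Finset.card_erase_of_mem (mem _ hx)] at h3
    have h4 : Fintype.card (core (d + 1) G : Set (Fin n)) = (core (d + 1) G).card := by simp
    omega
  exact GR.not_rigid (x := ⟨t.1, mem _ hx⟩) (y := ⟨t.2.1, mem _ hy⟩) (z := ⟨t.2.2, mem _ hz⟩)
    (a := ⟨a, ham⟩) hd hcard h.xy h.yz h.xz ha1 (fun e => ha2 (congrArg Subtype.val e))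
    (fun e => ha3 (congrArg Subtype.val e)) ha4 ha5 (dg _ hx) (dg _ hy) (dg _ hz)

/-- the vertices of `t` are isolated -/
def Iso (G : SimpleGraph (Fin n)) (t : Tr n) : Prop := ∀ u ∈ TT t, ∀ v, ¬ G.Adj u v

abbrev Legs (n : ℕ) := Finset (Fin n) × Finset (Fin n) × Finset (Fin n)

def rel (t : Tr n) (L : Legs n) (u v : Fin n) : Prop :=
  (u = t.1 ∧ (v = t.2.1 ∨ v = t.2.2 ∨ v ∈ L.1)) ∨ (u = t.2.1 ∧ (v = t.2.2 ∨ v ∈ L.2.1)) ∨
    (u = t.2.2 ∧ v ∈ L.2.2)

def plant (G : SimpleGraph (Fin n)) (t : Tr n) (L : Legs n) : SimpleGraph (Fin n) :=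
  G ⊔ SimpleGraph.fromRel (rel t L)

section plant

variable {G : SimpleGraph (Fin n)} {t : Tr n} {L : Legs n}

lemma plant_adj (u v : Fin n) :
    (plant G t L).Adj u v ↔ G.Adj u v ∨ (u ≠ v ∧ (rel t L u v ∨ rel t L v u)) := by
  simp [plant, SimpleGraph.fromRel_adj]

lemma plant_x (hD : Dist t) (hI : Iso G t) (h1 : Disjoint L.1 (TT t)) (h2 : Disjoint L.2.1 (TT t))
    (h3 : Disjoint L.2.2 (TT t)) (v : Fin n) :
    (plant G t L).Adj t.1 v ↔ v = t.2.1 ∨ v = t.2.2 ∨ v ∈ L.1 := by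
  have a1 := hI t.1 (by simp [TT]) v
  have b1 : t.1 ∉ L.1 := fun h => Finset.disjoint_left.1 h1 h (by simp [TT])
  have b2 : t.1 ∉ L.2.1 := fun h => Finset.disjoint_left.1 h2 h (by simp [TT])
  have b3 : t.1 ∉ L.2.2 := fun h => Finset.disjoint_left.1 h3 h (by simp [TT])
  obtain ⟨d1, d2, d3⟩ := hD
  rw [plant_adj]
  unfold rel
  grind

lemma plant_y (hD : Dist t) (hI : Iso G t) (h1 : Disjoint L.1 (TT t)) (h2 : Disjoint L.2.1 (TT t))
    (h3 : Disjoint L.2.2 (TT t)) (v : Fin n) :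
    (plant G t L).Adj t.2.1 v ↔ v = t.1 ∨ v = t.2.2 ∨ v ∈ L.2.1 := by
  have a1 := hI t.2.1 (by simp [TT]) v
  have b1 : t.2.1 ∉ L.1 := fun h => Finset.disjoint_left.1 h1 h (by simp [TT])
  have b2 : t.2.1 ∉ L.2.1 := fun h => Finset.disjoint_left.1 h2 h (by simp [TT])
  have b3 : t.2.1 ∉ L.2.2 := fun h => Finset.disjoint_left.1 h3 h (by simp [TT])
  obtain ⟨d1, d2, d3⟩ := hD
  rw [plant_adj]
  unfold rel
  grind

lemma plant_z (hD : Dist t) (hI : Iso G t) (h1 : Disjoint L.1 (TT t)) (h2 : Disjoint L.2.1 (TT t))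
    (h3 : Disjoint L.2.2 (TT t)) (v : Fin n) :
    (plant G t L).Adj t.2.2 v ↔ v = t.1 ∨ v = t.2.1 ∨ v ∈ L.2.2 := by
  have a1 := hI t.2.2 (by simp [TT]) v
  have b1 : t.2.2 ∉ L.1 := fun h => Finset.disjoint_left.1 h1 h (by simp [TT])
  have b2 : t.2.2 ∉ L.2.1 := fun h => Finset.disjoint_left.1 h2 h (by simp [TT])
  have b3 : t.2.2 ∉ L.2.2 := fun h => Finset.disjoint_left.1 h3 h (by simp [TT])
  obtain ⟨d1, d2, d3⟩ := hD
  rw [plant_adj]
  unfold rel
  grind

lemma plant_off (hI : Iso G t) (u v : Fin n) :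
    G.Adj u v ↔ (plant G t L).Adj u v ∧ u ∉ TT t ∧ v ∉ TT t := by
  have a1 := fun h => hI u h v
  have a2 := fun h => hI v h u
  have a3 := G.adj_comm u v
  rw [plant_adj]
  unfold rel
  simp only [TT, Finset.mem_insert, Finset.mem_singleton] at a1 a2 ⊢
  grind

lemma card_three {a b : Fin n} {S : Finset (Fin n)} {P : Fin n → Prop} (hab : a ≠ b) (ha : a ∉ S)
    (hb : b ∉ S) (h : ∀ v, P v ↔ v = a ∨ v = b ∨ v ∈ S) :
    (Finset.univ.filter P).card = S.card + 2 := by
  have : Finset.univ.filter P = insert a (insert b S) := by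
    ext v; simp [h]
  rw [this, Finset.card_insert_of_notMem (by simp [hab, ha]), Finset.card_insert_of_notMem hb]

lemma plant_good {d : ℕ} (hd : 2 ≤ d) (hD : Dist t) (hI : Iso G t)
    (s1 : L.1 ⊆ core (d + 1) G) (s2 : L.2.1 ⊆ core (d + 1) G) (s3 : L.2.2 ⊆ core (d + 1) G)
    (c1 : L.1.card = d - 1) (c2 : L.2.1.card = d - 1) (c3 : L.2.2.card = d - 1)
    (e1 : Disjoint L.1 L.2.2) (e2 : Disjoint L.2.1 L.2.2)
    (hK : Disjoint (core (d + 1) G) (TT t)) : Good d (plant G t L) t := by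
  have h1 := Finset.disjoint_of_subset_left s1 hK
  have h2 := Finset.disjoint_of_subset_left s2 hK
  have h3 := Finset.disjoint_of_subset_left s3 hK
  have hx := plant_x hD hI h1 h2 h3
  have hy := plant_y hD hI h1 h2 h3
  have hz := plant_z hD hI h1 h2 h3
  have nt : ∀ {S : Finset (Fin n)}, Disjoint S (TT t) → ∀ u ∈ TT t, u ∉ S :=
    fun h u hu h' => Finset.disjoint_left.1 h h' hu
  have mx : t.1 ∈ TT t := by simp [TT]
  have my : t.2.1 ∈ TT t := by simp [TT]
  have mz : t.2.2 ∈ TT t := by simp [TT]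
  refine ⟨(hx _).2 (Or.inl rfl), (hy _).2 (Or.inr (Or.inl rfl)), (hx _).2 (Or.inr (Or.inl rfl)),
    ?_, ⟨core (d + 1) G, hK, ?_, ?_⟩, ?_⟩
  · intro u hu
    simp only [TT, Finset.mem_insert, Finset.mem_singleton] at hu
    rcases hu with rfl | rfl | rfl
    · rw [card_three hD.2.1 (nt h1 _ my) (nt h1 _ mz) hx]; omega
    · rw [card_three hD.2.2 (nt h2 _ mx) (nt h2 _ mz) hy]; omega
    · rw [card_three hD.1 (nt h3 _ mx) (nt h3 _ my) hz]; omega
  · intro w hw
    refine (core_deg hw).trans (Finset.card_le_card fun v hv => ?_)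
    rw [Finset.mem_filter] at hv ⊢
    exact ⟨hv.1, (plant_adj _ _).2 (Or.inl hv.2)⟩
  · intro u hu v huv
    simp only [TT, Finset.mem_insert, Finset.mem_singleton] at hu
    rcases hu with rfl | rfl | rfl
    · rcases (hx v).1 huv with rfl | rfl | h
      exacts [Or.inl my, Or.inl mz, Or.inr (s1 h)]
    · rcases (hy v).1 huv with rfl | rfl | h
      exacts [Or.inl mx, Or.inl mz, Or.inr (s2 h)]
    · rcases (hz v).1 huv with rfl | rfl | h
      exacts [Or.inl mx, Or.inl my, Or.inr (s3 h)]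
  · obtain ⟨a, ha⟩ : L.2.2.Nonempty := Finset.card_pos.1 (by omega)
    have n1 : a ≠ t.1 := fun e => nt h3 _ mx (e ▸ ha)
    have n2 : a ≠ t.2.1 := fun e => nt h3 _ my (e ▸ ha)
    have n3 : a ≠ t.2.2 := fun e => nt h3 _ mz (e ▸ ha)
    refine ⟨a, (hz a).2 (Or.inr (Or.inr ha)), n1, n2, ?_, ?_⟩
    · rw [hx]
      rintro (h | h | h)
      exacts [n2 h, n3 h, Finset.disjoint_left.1 e1 h ha]
    · rw [hy]
      rintro (h | h | h)
      exacts [n1 h, n3 h, Finset.disjoint_left.1 e2 h ha]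

lemma plant_ncard (k : ℕ) (c1 : L.1.card ≤ k) (c2 : L.2.1.card ≤ k) (c3 : L.2.2.card ≤ k) :
    (plant G t L).edgeSet.ncard ≤ G.edgeSet.ncard + (3 + 3 * k) := by
  let F : Finset (Sym2 (Fin n)) := ({s(t.1, t.2.1), s(t.1, t.2.2), s(t.2.1, t.2.2)} :
    Finset (Sym2 (Fin n))) ∪ L.1.image (fun v => s(t.1, v)) ∪ L.2.1.image (fun v => s(t.2.1, v)) ∪
    L.2.2.image (fun v => s(t.2.2, v))
  have hF : F.card ≤ 3 + 3 * k := by
    have a0 : ({s(t.1, t.2.1), s(t.1, t.2.2), s(t.2.1, t.2.2)} : Finset (Sym2 (Fin n))).card ≤ 3 :=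
      Finset.card_le_three
    have a1 := (Finset.card_image_le (s := L.1) (f := fun v => s(t.1, v))).trans c1
    have a2 := (Finset.card_image_le (s := L.2.1) (f := fun v => s(t.2.1, v))).trans c2
    have a3 := (Finset.card_image_le (s := L.2.2) (f := fun v => s(t.2.2, v))).trans c3
    refine (Finset.card_union_le _ _).trans ?_
    refine (Nat.add_le_add_right (Finset.card_union_le _ _) _).trans ?_
    refine (Nat.add_le_add_right (Nat.add_le_add_right (Finset.card_union_le _ _) _) _).trans ?_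
    omega
  have key : ∀ u v, rel t L u v → s(u, v) ∈ F := by
    intro u v h
    simp only [F, Finset.mem_union, Finset.mem_insert, Finset.mem_singleton, Finset.mem_image]
    rcases h with ⟨rfl, rfl | rfl | h⟩ | ⟨rfl, rfl | h⟩ | ⟨rfl, h⟩
    · simp
    · simp
    · exact Or.inl (Or.inl (Or.inr ⟨v, h, rfl⟩))
    · simp
    · exact Or.inl (Or.inr ⟨v, h, rfl⟩)
    · exact Or.inr ⟨v, h, rfl⟩
  have hsub : (plant G t L).edgeSet ⊆ G.edgeSet ∪ (F : Set (Sym2 (Fin n))) := by
    intro e he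
    induction e using Sym2.ind with
    | _ u v =>
      rcases (plant_adj u v).1 he with h | ⟨-, h | h⟩
      · exact Or.inl h
      · exact Or.inr (key u v h)
      · exact Or.inr (by rw [Sym2.eq_swap]; exact key v u h)
  refine (Set.ncard_le_ncard hsub).trans ((Set.ncard_union_le _ _).trans ?_)
  rw [Set.ncard_coe_finset]
  omega

end plant

lemma core_disj {k : ℕ} (hk : 0 < k) {G : SimpleGraph (Fin n)} {t : Tr n} (hI : Iso G t) :
    Disjoint (core k G) (TT t) := by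
  rw [Finset.disjoint_left]
  intro w hw hwT
  have h1 := core_deg hw
  have h2 : (core k G).filter (G.Adj w) = ∅ :=
    Finset.filter_eq_empty_iff.2 fun v _ => hI w hwT v
  rw [h2] at h1
  simp at h1
  omega

lemma Pr_good {d : ℕ} (hd : 2 ≤ d) {p : ℝ} (h0 : 0 ≤ p) (h1 : p ≤ 1) {t : Tr n} (hD : Dist t)
    (m : ℕ) : p ^ (3 * d) * (m.choose (d - 1) : ℝ) ^ 3 *
      Pr n p (fun G => Iso G t ∧ 2 * m ≤ (core (d + 1) G).card) ≤ Pr n p (fun G => Good d G t) := by
  have hex : ∀ G : SimpleGraph (Fin n), 2 * m ≤ (core (d + 1) G).card →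
      ∃ AB : Finset (Fin n) × Finset (Fin n), AB.1 ⊆ core (d + 1) G ∧ AB.2 ⊆ core (d + 1) G ∧
        AB.1.card = m ∧ AB.2.card = m ∧ Disjoint AB.1 AB.2 := by
    intro G hG
    obtain ⟨A, hA1, hA2⟩ := Finset.exists_subset_card_eq (s := core (d + 1) G) (n := m) (by omega)
    obtain ⟨B, hB1, hB2⟩ := Finset.exists_subset_card_eq (s := core (d + 1) G \ A) (n := m)
      (by rw [Finset.card_sdiff_of_subset hA1]; omega)
    exact ⟨(A, B), hA1, hB1.trans Finset.sdiff_subset, hA2, hB2,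
      (Finset.disjoint_of_subset_left hB1 Finset.sdiff_disjoint).symm⟩
  choose! AB hAB using hex
  let I := Finset.univ.filter (fun G : SimpleGraph (Fin n) =>
    Iso G t ∧ 2 * m ≤ (core (d + 1) G).card)
  let LL : SimpleGraph (Fin n) → Finset (Legs n) := fun G =>
    (AB G).1.powersetCard (d - 1) ×ˢ (AB G).1.powersetCard (d - 1) ×ˢ (AB G).2.powersetCard (d - 1)
  let Dom : Finset (Σ _ : SimpleGraph (Fin n), Legs n) := I.sigma LL
  let φ : (Σ _ : SimpleGraph (Fin n), Legs n) → SimpleGraph (Fin n) := fun x => plant x.1 t x.2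
  have unpack : ∀ x ∈ Dom, Iso x.1 t ∧ x.2.1 ⊆ core (d + 1) x.1 ∧ x.2.2.1 ⊆ core (d + 1) x.1 ∧
      x.2.2.2 ⊆ core (d + 1) x.1 ∧ x.2.1.card = d - 1 ∧ x.2.2.1.card = d - 1 ∧
      x.2.2.2.card = d - 1 ∧ Disjoint x.2.1 x.2.2.2 ∧ Disjoint x.2.2.1 x.2.2.2 := by
    intro x hx
    simp only [Dom, I, LL, Finset.mem_sigma, Finset.mem_filter, Finset.mem_univ, true_and,
      Finset.mem_product, Finset.mem_powersetCard] at hx
    obtain ⟨⟨a1, a2⟩, ⟨b1, b2⟩, ⟨b3, b4⟩, b5, b6⟩ := hx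
    obtain ⟨c1, c2, c3, c4, c5⟩ := hAB x.1 a2
    exact ⟨a1, b1.trans c1, b3.trans c1, b5.trans c2, b2, b4, b6,
      Finset.disjoint_of_subset_left b1 (Finset.disjoint_of_subset_right b5 c5),
      Finset.disjoint_of_subset_left b3 (Finset.disjoint_of_subset_right b5 c5)⟩
  have hgood : ∀ x ∈ Dom, Good d (φ x) t := by
    intro x hx
    obtain ⟨a1, a2, a3, a4, a5, a6, a7, a8, a9⟩ := unpack x hx
    exact plant_good hd hD a1 a2 a3 a4 a5 a6 a7 a8 a9 (core_disj (by omega) a1)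
  have hinj : Set.InjOn φ Dom := by
    rintro ⟨G, L⟩ hx ⟨G', L'⟩ hx' h
    obtain ⟨a1, a2, a3, a4, -⟩ := unpack _ hx
    obtain ⟨b1, b2, b3, b4, -⟩ := unpack _ hx'
    simp only at a1 a2 a3 a4 b1 b2 b3 b4
    have h' : plant G t L = plant G' t L' := h
    have hG : G = G' := by
      ext u v
      rw [plant_off (L := L) a1, plant_off (L := L') b1, h']
    have k1 := core_disj (k := d + 1) (by omega) a1
    have k2 := core_disj (k := d + 1) (by omega) b1
    have d1 := Finset.disjoint_of_subset_left a2 k1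
    have d2 := Finset.disjoint_of_subset_left a3 k1
    have d3 := Finset.disjoint_of_subset_left a4 k1
    have d1' := Finset.disjoint_of_subset_left b2 k2
    have d2' := Finset.disjoint_of_subset_left b3 k2
    have d3' := Finset.disjoint_of_subset_left b4 k2
    have nt : ∀ {S : Finset (Fin n)}, Disjoint S (TT t) → t.1 ∉ S ∧ t.2.1 ∉ S ∧ t.2.2 ∉ S :=
      fun h => ⟨fun h' => Finset.disjoint_left.1 h h' (by simp [TT]),
        fun h' => Finset.disjoint_left.1 h h' (by simp [TT]),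
        fun h' => Finset.disjoint_left.1 h h' (by simp [TT])⟩
    have hL : L = L' := by
      refine Prod.ext ?_ (Prod.ext ?_ ?_)
      · ext v
        have e1 := plant_x hD a1 d1 d2 d3 v
        have e2 := plant_x hD b1 d1' d2' d3' v
        rw [h'] at e1
        have := nt d1
        have := nt d1'
        grind
      · ext v
        have e1 := plant_y hD a1 d1 d2 d3 v
        have e2 := plant_y hD b1 d1' d2' d3' v
        rw [h'] at e1
        have := nt d2
        have := nt d2'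
        grind
      · ext v
        have e1 := plant_z hD a1 d1 d2 d3 v
        have e2 := plant_z hD b1 d1' d2' d3' v
        rw [h'] at e1
        have := nt d3
        have := nt d3'
        grind
    subst hG hL
    rfl
  rw [Pr_eq_filter, Pr_eq_filter]
  calc p ^ (3 * d) * (m.choose (d - 1) : ℝ) ^ 3 * ∑ G ∈ I, wt p G
      = ∑ x ∈ Dom, p ^ (3 * d) * wt p x.1 := by
        rw [Finset.sum_sigma, Finset.mul_sum]
        refine Finset.sum_congr rfl fun G hG => ?_
        obtain ⟨c1, c2, c3, c4, c5⟩ := hAB G (Finset.mem_filter.1 hG).2.2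
        simp only [Finset.sum_const, nsmul_eq_mul, LL, Finset.card_product,
          Finset.card_powersetCard, c3, c4]
        push_cast
        ring
    _ ≤ ∑ x ∈ Dom, wt p (φ x) := by
        refine Finset.sum_le_sum fun x hx => ?_
        obtain ⟨a1, a2, a3, a4, a5, a6, a7, a8, a9⟩ := unpack x hx
        refine wt_surgery h0 h1 le_sup_left _ ?_
        have := plant_ncard (G := x.1) (t := t) (L := x.2) (d - 1) a5.le a6.le a7.le
        have e : 3 + 3 * (d - 1) = 3 * d := by omega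
        rw [e] at this
        exact this
    _ = ∑ G ∈ Dom.image φ, wt p G := (Finset.sum_image hinj).symm
    _ ≤ _ := by
        refine Finset.sum_le_sum_of_subset_of_nonneg ?_ fun G _ _ => wt_nonneg h0 h1 G
        intro G hG
        obtain ⟨x, hx, rfl⟩ := Finset.mem_image.1 hG
        exact Finset.mem_filter.2 ⟨Finset.mem_univ _, hgood x hx⟩

end Pool.Agent.H202Z.GR
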