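import Pool.Agent.H202Z.GR.Good

open Classical Pool.Agent.H135R2.VS Filter

namespace Pool.Agent.H202Z.GR

variable {n : ℕ}

noncomputable def DT (n : ℕ) : Finset (Tr n) := Finset.univ.filter Dist

lemma card_DT (n : ℕ) : (n - 2) ^ 3 ≤ (DT n).card := by
  have h1 : (n + 1 - 3) ^ 3 ≤ n.descFactorial 3 := n.pow_sub_le_descFactorial 3
  have h2 : Fintype.card (Fin 3 ↪ Fin n) = n.descFactorial 3 := by simp
  have h3 : (Finset.univ : Finset (Fin 3 ↪ Fin n)).card ≤ (DT n).card := by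
    refine Finset.card_le_card_of_injOn (fun f => (f 0, f 1, f 2)) ?_ ?_
    · intro f _
      simp [DT, Dist]
    · intro f _ g _ h
      simp only [Prod.mk.injEq] at h
      ext i
      fin_cases i <;> simp [h.1, h.2.1, h.2.2]
  rw [Finset.card_univ, h2] at h3
  have e : n + 1 - 3 = n - 2 := by omega
  rw [e] at h1
  omega

lemma Pr_iso {p : ℝ} (h0 : 0 ≤ p) (h1 : p ≤ 1) (t : Tr n) :
    (1 - p) ^ (3 * n) ≤ Pr n p (fun G => Iso G t) := by
  let F : Finset (Sym2 (Fin n)) :=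
    (TT t ×ˢ (Finset.univ : Finset (Fin n))).image (fun x => s(x.1, x.2))
  have hF : F.card ≤ 3 * n := by
    refine Finset.card_image_le.trans ?_
    rw [Finset.card_product, Finset.card_univ, Fintype.card_fin]
    exact Nat.mul_le_mul_right _ Finset.card_le_three
  refine le_trans (pow_le_pow_of_le_one (by linarith) (by linarith) hF) ?_
  refine (Pr_avoids h0 h1 F).trans (Pr_mono h0 h1 fun G hG u hu v huv => ?_)
  exact hG s(u, v) (Finset.mem_image.2 ⟨(u, v), by simp [hu], rfl⟩) huv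

lemma Pr_union {p : ℝ} (h0 : 0 ≤ p) (h1 : p ≤ 1) {Q R S : SimpleGraph (Fin n) → Prop}
    (h : ∀ G, Q G → R G ∨ S G) : Pr n p Q ≤ Pr n p R + Pr n p S := by
  rw [Pr_eq, Pr_eq, Pr_eq, ← Ex_add]
  refine Ex_mono h0 h1 fun G => ?_
  have := h G
  by_cases a : Q G <;> by_cases b : R G <;> by_cases c : S G <;> simp_all

def F6 (t t' : Tr n) : Finset (Sym2 (Fin n)) :=
  {s(t.1, t.2.1), s(t.2.1, t.2.2), s(t.1, t.2.2), s(t'.1, t'.2.1), s(t'.2.1, t'.2.2),
    s(t'.1, t'.2.2)}

lemma Pr_F6 (p : ℝ) {t t' : Tr n} (hD : Dist t) (hD' : Dist t') (h : Disjoint (TT t) (TT t')) :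
    Pr n p (fun G => ∀ e ∈ F6 t t', e ∈ G.edgeSet) = p ^ 6 := by
  obtain ⟨x, y, z⟩ := t
  obtain ⟨x', y', z'⟩ := t'
  obtain ⟨a1, a2, a3⟩ := hD
  obtain ⟨b1, b2, b3⟩ := hD'
  simp only [TT, Finset.disjoint_left, Finset.mem_insert, Finset.mem_singleton, not_or,
    forall_eq_or_imp, forall_eq] at h a1 a2 a3 b1 b2 b3
  have hc : (F6 (x, y, z) (x', y', z')).card = 6 := by
    unfold F6
    rw [Finset.card_insert_of_notMem, Finset.card_insert_of_notMem, Finset.card_insert_of_notMem,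
      Finset.card_insert_of_notMem, Finset.card_insert_of_notMem, Finset.card_singleton]
    all_goals
      simp only [Finset.mem_insert, Finset.mem_singleton, Sym2.eq_iff]
      grind
  rw [Pr_contains p _ ?_, hc]
  intro e he
  simp only [F6, Finset.mem_insert, Finset.mem_singleton] at he
  simp only [E0, Finset.mem_filter, Finset.mem_univ, true_and]
  rcases he with rfl | rfl | rfl | rfl | rfl | rfl <;> simpa

noncomputable def X (d : ℕ) (G : SimpleGraph (Fin n)) : ℝ :=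
  ∑ t ∈ DT n, if Good d G t then 1 else 0

lemma X_sq (d : ℕ) (G : SimpleGraph (Fin n)) : X d G ^ 2 ≤ 27 * X d G +
    ∑ t ∈ DT n, ∑ t' ∈ DT n, if Disjoint (TT t) (TT t') then
      (if ∀ e ∈ F6 t t', e ∈ G.edgeSet then 1 else 0) else 0 := by
  unfold X
  rw [sq, Finset.sum_mul_sum, Finset.mul_sum, ← Finset.sum_add_distrib]
  refine Finset.sum_le_sum fun t _ => ?_
  have h27 : ∑ t' ∈ DT n, (if t' ∈ TT t ×ˢ TT t ×ˢ TT t then (1 : ℝ) else 0) ≤ 27 := by
    rw [Finset.sum_ite_mem, Finset.sum_const, nsmul_eq_mul, mul_one]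
    have a1 : (DT n ∩ TT t ×ˢ TT t ×ˢ TT t).card ≤ (TT t ×ˢ TT t ×ˢ TT t).card :=
      Finset.card_le_card Finset.inter_subset_right
    rw [Finset.card_product, Finset.card_product] at a1
    have a2 : (TT t).card ≤ 3 := Finset.card_le_three
    have a3 : (TT t).card * ((TT t).card * (TT t).card) ≤ 3 * (3 * 3) :=
      Nat.mul_le_mul a2 (Nat.mul_le_mul a2 a2)
    exact_mod_cast a1.trans a3
  by_cases hg : Good d G t
  · rw [if_pos hg, mul_one]
    refine le_trans ?_ (add_le_add_left h27 _)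
    rw [← Finset.sum_add_distrib]
    refine Finset.sum_le_sum fun t' _ => ?_
    by_cases hg' : Good d G t'
    · rw [if_pos hg', mul_one]
      by_cases hd : Disjoint (TT t) (TT t')
      · have : ∀ e ∈ F6 t t', e ∈ G.edgeSet := by
          intro e he
          simp only [F6, Finset.mem_insert, Finset.mem_singleton] at he
          rcases he with rfl | rfl | rfl | rfl | rfl | rfl
          exacts [hg.xy, hg.yz, hg.xz, hg'.xy, hg'.yz, hg'.xz]
        rw [if_pos hd, if_pos this]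
        split_ifs <;> norm_num
      · have hs := hg.subset hg' hd
        rw [if_neg hd, if_pos, add_zero]
        simp only [Finset.mem_product]
        exact ⟨hs (by simp [TT]), hs (by simp [TT]), hs (by simp [TT])⟩
    · rw [if_neg hg', mul_zero]
      split_ifs <;> norm_num
  · simp only [if_neg hg, zero_mul, mul_zero, Finset.sum_const_zero, zero_add]
    exact Finset.sum_nonneg fun t' _ => by split_ifs <;> norm_num

lemma Ex_X_sq (d : ℕ) {p : ℝ} (h0 : 0 ≤ p) (h1 : p ≤ 1) :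
    Ex p (fun G : SimpleGraph (Fin n) => X d G ^ 2) ≤ 27 * Ex p (X (n := n) d) + (n * p) ^ 6 := by
  refine (Ex_mono h0 h1 (X_sq d)).trans ?_
  rw [Ex_add, Ex_mul, Ex_sum]
  refine add_le_add_right ?_ _
  have hc : ((DT n).card : ℝ) ≤ (n : ℝ) ^ 3 := by
    have : (DT n).card ≤ Fintype.card (Tr n) := Finset.card_le_univ _
    simp only [Fintype.card_prod, Fintype.card_fin] at this
    have h2 : ((DT n).card : ℝ) ≤ n * (n * n) := by exact_mod_cast this
    nlinarith
  have hp6 : 0 ≤ p ^ 6 := by positivity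
  calc _ ≤ ∑ _t ∈ DT n, ∑ _t' ∈ DT n, p ^ 6 := by
        refine Finset.sum_le_sum fun t ht => ?_
        rw [Ex_sum]
        refine Finset.sum_le_sum fun t' ht' => ?_
        by_cases hd : Disjoint (TT t) (TT t')
        · simp only [if_pos hd]
          rw [← Pr_eq, Pr_F6 p (Finset.mem_filter.1 ht).2 (Finset.mem_filter.1 ht').2 hd]
        · simp only [if_neg hd, Ex, mul_zero, Finset.sum_const_zero]
          exact hp6
    _ = ((DT n).card : ℝ) * (((DT n).card : ℝ) * p ^ 6) := by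
        simp only [Finset.sum_const, nsmul_eq_mul]
    _ ≤ (n : ℝ) ^ 3 * ((n : ℝ) ^ 3 * p ^ 6) := by gcongr
    _ = _ := by ring

lemma Pr_exists (d : ℕ) {p : ℝ} (h0 : 0 ≤ p) (h1 : p ≤ 1) (l : ℝ) :
    2 * l * Ex p (X (n := n) d) - l ^ 2 * Ex p (fun G : SimpleGraph (Fin n) => X d G ^ 2) ≤
      Pr n p (fun G => ∃ t, Good d G t) := by
  rw [Pr_eq, sub_eq_add_neg, ← neg_mul, ← Ex_mul, ← Ex_mul, ← Ex_add]
  refine Ex_mono h0 h1 fun G => ?_
  by_cases h : ∃ t, Good d G t
  · rw [if_pos h]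
    nlinarith [sq_nonneg (1 - l * X d G)]
  · rw [if_neg h]
    have : X d G = 0 := Finset.sum_eq_zero fun t _ => if_neg fun h' => h ⟨t, h'⟩
    rw [this]
    simp

lemma exp_le {x : ℝ} (h0 : 0 ≤ x) (h1 : x ≤ 1 / 2) : Real.exp (-(2 * x)) ≤ 1 - x := by
  have h := Real.add_one_le_exp (2 * x)
  rw [Real.exp_neg, inv_le_iff_one_le_mul₀ (Real.exp_pos _)]
  nlinarith [mul_nonneg h0 (sub_nonneg.2 h1)]

theorem main (d : ℕ) (hd : 2 ≤ d) (c : ℝ) (hc : 0 < c) (ε : ℝ) (hε : 0 < ε) :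
    ∃ δ : ℝ, 0 < δ ∧ ∀ᶠ n : ℕ in atTop,
      Pr n (c / n) (fun G => GloballyRigid d (G.induce (core (d + 1) G : Set (Fin n))) ∧
        ε * n ≤ ((core (d + 1) G).card : ℝ)) ≤ 1 - δ := by
  set κ : ℝ := Real.exp (-(6 * c)) with hκ
  have κ0 : 0 < κ := Real.exp_pos _
  set β : ℝ := (ε * c / 4) ^ (d - 1) / ((d - 1).factorial : ℝ) with hβ
  have β0 : 0 < β := by positivity
  set μ : ℝ := (c / 2) ^ 3 * β ^ 3 * (κ / 2) with hμ
  have μ0 : 0 < μ := by positivity
  set l : ℝ := min (1 / 27) (μ / (2 * c ^ 6)) with hl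
  have l0 : 0 < l := lt_min (by norm_num) (by positivity)
  refine ⟨min (κ / 2) (l * μ / 2), lt_min (by positivity) (by positivity), ?_⟩
  have ev1 : ∀ᶠ n : ℕ in atTop, 2 * c ≤ (n : ℝ) :=
    tendsto_natCast_atTop_atTop.eventually_ge_atTop _
  have ev2 : ∀ᶠ n : ℕ in atTop, 4 * (d : ℝ) / ε ≤ (n : ℝ) :=
    tendsto_natCast_atTop_atTop.eventually_ge_atTop _
  filter_upwards [ev1, ev2, eventually_ge_atTop 4] with n e1 e2 e3
  have n4 : (4 : ℝ) ≤ n := by exact_mod_cast e3
  have n0 : (0 : ℝ) < n := by linarith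
  set p : ℝ := c / n with hp
  have p0 : 0 ≤ p := by positivity
  have ph : p ≤ 1 / 2 := by rw [hp, div_le_iff₀ n0]; linarith
  have p1 : p ≤ 1 := by linarith
  have np : (n : ℝ) * p = c := by rw [hp]; field_simp
  set E : SimpleGraph (Fin n) → Prop := fun G =>
    GloballyRigid d (G.induce (core (d + 1) G : Set (Fin n))) ∧
        ε * n ≤ ((core (d + 1) G).card : ℝ) with hE
  have hcompl := Pr_compl p E
  by_cases hη : κ / 2 ≤ Pr n p (fun G => ¬ E G)
  · have := min_le_left (κ / 2) (l * μ / 2)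
    linarith
  push Not at hη
  set m : ℕ := ⌊ε * n / 2⌋₊ with hm
  have m1 : (m : ℝ) ≤ ε * n / 2 := Nat.floor_le (by positivity)
  have m2 : ε * n / 2 < m + 1 := Nat.lt_floor_add_one _
  have e2' : 4 * (d : ℝ) ≤ ε * n := by
    rw [div_le_iff₀ hε] at e2; linarith
  have hiso : ∀ t : Tr n, κ / 2 ≤ Pr n p (fun G => Iso G t ∧ 2 * m ≤ (core (d + 1) G).card) := by
    intro t
    have a1 := Pr_iso p0 p1 t
    have a2 : κ ≤ (1 - p) ^ (3 * n) := by
      have := pow_le_pow_left₀ (Real.exp_pos _).le (exp_le p0 ph) (3 * n)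
      rw [← Real.exp_nat_mul] at this
      have e : ((3 * n : ℕ) : ℝ) * -(2 * p) = -(6 * c) := by
        push_cast; rw [← np]; ring
      rwa [e] at this
    have a3 := Pr_union (n := n) p0 p1 (Q := fun G => Iso G t)
      (R := fun G => Iso G t ∧ 2 * m ≤ (core (d + 1) G).card) (S := fun G => ¬ E G) (by
        intro G hG
        by_cases h : E G
        · refine Or.inl ⟨hG, ?_⟩
          have : ((2 * m : ℕ) : ℝ) ≤ ((core (d + 1) G).card : ℝ) := by
            push_cast; linarith [h.2]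
          exact_mod_cast this
        · exact Or.inr h)
    linarith
  have hch : β ≤ p ^ (d - 1) * (m.choose (d - 1) : ℝ) := by
    have a1 : ((m + 1 - (d - 1) : ℕ) : ℝ) ^ (d - 1) / ((d - 1).factorial : ℝ) ≤
        (m.choose (d - 1) : ℝ) := Nat.pow_le_choose (d - 1) m
    have a2 : ε * n / 4 ≤ ((m + 1 - (d - 1) : ℕ) : ℝ) := by
      have b1 : ((d - 1 : ℕ) : ℝ) ≤ d := by exact_mod_cast Nat.sub_le d 1
      have b2 : d - 1 ≤ m + 1 := by
        have : ((d - 1 : ℕ) : ℝ) ≤ ((m + 1 : ℕ) : ℝ) := by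
          push_cast
          have : (0 : ℝ) ≤ d := Nat.cast_nonneg d
          linarith
        exact_mod_cast this
      rw [Nat.cast_sub b2]
      push_cast
      linarith
    have a3 : (ε * n / 4) ^ (d - 1) ≤ ((m + 1 - (d - 1) : ℕ) : ℝ) ^ (d - 1) :=
      pow_le_pow_left₀ (by positivity) a2 _
    have a4 : β = p ^ (d - 1) * ((ε * n / 4) ^ (d - 1) / ((d - 1).factorial : ℝ)) := by
      rw [hβ, ← mul_div_assoc, ← mul_pow]
      congr 2
      have : p * (ε * n / 4) = ε * (n * p) / 4 := by ring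
      rw [this, np]
    rw [a4]
    refine mul_le_mul_of_nonneg_left (le_trans ?_ a1) (by positivity)
    exact div_le_div_of_nonneg_right a3 (by positivity)
  have hEX : μ ≤ Ex p (X (n := n) d) := by
    have a1 : Ex p (X (n := n) d) = ∑ t ∈ DT n, Pr n p (fun G => Good d G t) := by
      unfold X
      rw [Ex_sum]
      exact Finset.sum_congr rfl fun t _ => (Pr_eq p _).symm
    have a2 : ∀ t ∈ DT n, p ^ 3 * β ^ 3 * (κ / 2) ≤ Pr n p (fun G => Good d G t) := by
      intro t ht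
      refine le_trans ?_ (Pr_good hd p0 p1 (Finset.mem_filter.1 ht).2 m)
      have e : p ^ (3 * d) * (m.choose (d - 1) : ℝ) ^ 3 =
          p ^ 3 * (p ^ (d - 1) * (m.choose (d - 1) : ℝ)) ^ 3 := by
        rw [mul_pow, ← pow_mul, ← mul_assoc, ← pow_add]
        congr 2
        omega
      rw [e]
      have := hiso t
      gcongr
    have a3 := Finset.card_nsmul_le_sum _ _ _ a2
    rw [nsmul_eq_mul] at a3
    have a4 : ((n : ℝ) / 2) ^ 3 ≤ ((DT n).card : ℝ) := by
      have b1 : (((n - 2) ^ 3 : ℕ) : ℝ) ≤ ((DT n).card : ℝ) := by exact_mod_cast card_DT n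
      refine le_trans ?_ b1
      rw [Nat.cast_pow, Nat.cast_sub (by omega)]
      push_cast
      exact pow_le_pow_left₀ (by positivity) (by linarith) 3
    rw [a1]
    refine le_trans ?_ a3
    have e : μ = ((n : ℝ) / 2) ^ 3 * (p ^ 3 * β ^ 3 * (κ / 2)) := by
      rw [hμ, ← np]; ring
    rw [e]
    gcongr
  have h2 := Ex_X_sq (n := n) d p0 p1
  rw [np] at h2
  have h3 := Pr_exists (n := n) d p0 p1 l
  have h4 : Pr n p (fun G => ∃ t, Good d G t) ≤ Pr n p (fun G => ¬ E G) :=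
    Pr_mono p0 p1 fun G ⟨t, ht⟩ h => ht.not_rigid (by omega) h.1
  have l1 : l ≤ 1 / 27 := min_le_left _ _
  have l2 : l * c ^ 6 ≤ μ / 2 := by
    have : l ≤ μ / (2 * c ^ 6) := min_le_right _ _
    rw [le_div_iff₀ (by positivity)] at this
    linarith
  have h5 : l * μ / 2 ≤ Pr n p (fun G => ¬ E G) := by
    have b1 : l ^ 2 * Ex p (fun G : SimpleGraph (Fin n) => X d G ^ 2) ≤
        l ^ 2 * (27 * Ex p (X (n := n) d) + c ^ 6) := mul_le_mul_of_nonneg_left h2 (by positivity)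
    have b2 : l * (l * c ^ 6) ≤ l * (μ / 2) := mul_le_mul_of_nonneg_left l2 l0.le
    have b3 : l * μ ≤ l * Ex p (X (n := n) d) := mul_le_mul_of_nonneg_left hEX l0.le
    have b4 : 0 ≤ l * Ex p (X (n := n) d) * (1 - 27 * l) :=
      mul_nonneg (le_trans (by positivity) b3) (by linarith)
    nlinarith
  have := min_le_right (κ / 2) (l * μ / 2)
  linarith

end Pool.Agent.H202Z.GR
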