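import Pool.Agent.H202Z.GR.Defs

open Classical

namespace Pool.Agent.H202Z.GR

variable {n : ℕ}

noncomputable def wt (p : ℝ) (G : SimpleGraph (Fin n)) : ℝ :=
  p ^ G.edgeSet.ncard * (1 - p) ^ (n.choose 2 - G.edgeSet.ncard)

noncomputable def Ex (p : ℝ) (f : SimpleGraph (Fin n) → ℝ) : ℝ := ∑ G, wt p G * f G

lemma wt_nonneg {p : ℝ} (h0 : 0 ≤ p) (h1 : p ≤ 1) (G : SimpleGraph (Fin n)) : 0 ≤ wt p G := by
  unfold wt
  have : 0 ≤ 1 - p := by linarith
  positivity

lemma Pr_eq (p : ℝ) (Q : SimpleGraph (Fin n) → Prop) [DecidablePred Q] :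
    Pr n p Q = Ex p (fun G => if Q G then 1 else 0) := by
  unfold Pr Ex wt
  exact Finset.sum_congr rfl fun G _ => by by_cases h : Q G <;> simp [h]

lemma Pr_eq_filter (p : ℝ) (Q : SimpleGraph (Fin n) → Prop) [DecidablePred Q] :
    Pr n p Q = ∑ G ∈ Finset.univ.filter Q, wt p G := by
  rw [Finset.sum_filter]
  unfold Pr wt
  exact Finset.sum_congr rfl fun G _ => by by_cases h : Q G <;> simp [h]

lemma Ex_mono {p : ℝ} (h0 : 0 ≤ p) (h1 : p ≤ 1) {f g : SimpleGraph (Fin n) → ℝ}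
    (h : ∀ G, f G ≤ g G) : Ex p f ≤ Ex p g :=
  Finset.sum_le_sum fun G _ => mul_le_mul_of_nonneg_left (h G) (wt_nonneg h0 h1 G)

lemma Ex_sum {ι : Type*} (p : ℝ) (s : Finset ι) (f : ι → SimpleGraph (Fin n) → ℝ) :
    Ex p (fun G => ∑ i ∈ s, f i G) = ∑ i ∈ s, Ex p (f i) := by
  unfold Ex
  simp only [Finset.mul_sum]
  exact Finset.sum_comm

lemma Ex_add (p : ℝ) (f g : SimpleGraph (Fin n) → ℝ) :
    Ex p (fun G => f G + g G) = Ex p f + Ex p g := by
  unfold Ex
  simp only [mul_add, Finset.sum_add_distrib]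

lemma Ex_mul (p c : ℝ) (f : SimpleGraph (Fin n) → ℝ) :
    Ex p (fun G => c * f G) = c * Ex p f := by
  unfold Ex
  rw [Finset.mul_sum]
  exact Finset.sum_congr rfl fun G _ => by ring

lemma Pr_mono {p : ℝ} (h0 : 0 ≤ p) (h1 : p ≤ 1) {Q R : SimpleGraph (Fin n) → Prop}
    (h : ∀ G, Q G → R G) : Pr n p Q ≤ Pr n p R := by
  rw [Pr_eq, Pr_eq]
  refine Ex_mono h0 h1 fun G => ?_
  by_cases hQ : Q G
  · rw [if_pos hQ, if_pos (h G hQ)]
  · rw [if_neg hQ]; split_ifs <;> norm_num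

lemma Pr_nonneg {p : ℝ} (h0 : 0 ≤ p) (h1 : p ≤ 1) (Q : SimpleGraph (Fin n) → Prop) :
    0 ≤ Pr n p Q := by
  rw [Pr_eq_filter]
  exact Finset.sum_nonneg fun G _ => wt_nonneg h0 h1 G

/-- all non-diagonal pairs -/
noncomputable def E0 (n : ℕ) : Finset (Sym2 (Fin n)) := Finset.univ.filter (fun e => ¬ e.IsDiag)

lemma card_E0 : (E0 n).card = n.choose 2 := by
  have := Sym2.card_subtype_not_diag (α := Fin n)
  rw [Fintype.card_fin, Fintype.card_subtype] at this
  exact this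

lemma sum_graphs (f : Finset (Sym2 (Fin n)) → ℝ) :
    ∑ G : SimpleGraph (Fin n), f G.edgeSet.toFinset = ∑ S ∈ (E0 n).powerset, f S := by
  refine Finset.sum_bij (fun G _ => G.edgeSet.toFinset) ?_ ?_ ?_ ?_
  · intro G _
    rw [Finset.mem_powerset]
    intro e he
    simp only [E0, Finset.mem_filter, Finset.mem_univ, true_and]
    exact G.not_isDiag_of_mem_edgeSet (by simpa using he)
  · intro G _ G' _ h
    apply SimpleGraph.edgeSet_injective
    exact Set.toFinset_inj.1 h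
  · intro S hS
    refine ⟨SimpleGraph.fromEdgeSet S, Finset.mem_univ _, ?_⟩
    ext e
    simp only [SimpleGraph.edgeSet_fromEdgeSet, Set.mem_toFinset, Set.mem_sdiff, Finset.mem_coe,
      Sym2.mem_diagSet, and_iff_left_iff_imp]
    intro he
    have := Finset.mem_powerset.1 hS he
    simpa [E0] using this
  · intro G _
    rfl

lemma prod_formula (p : ℝ) (a b : Sym2 (Fin n) → ℝ) :
    ∑ G : SimpleGraph (Fin n), wt p G * ((∏ e ∈ G.edgeSet.toFinset, a e) *
      ∏ e ∈ E0 n \ G.edgeSet.toFinset, b e) = ∏ e ∈ E0 n, (p * a e + (1 - p) * b e) := by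
  rw [Finset.prod_add, ← sum_graphs (fun S => (∏ e ∈ S, p * a e) * ∏ e ∈ E0 n \ S, (1 - p) * b e)]
  refine Finset.sum_congr rfl fun G _ => ?_
  have hsub : G.edgeSet.toFinset ⊆ E0 n := by
    intro e he
    simp only [E0, Finset.mem_filter, Finset.mem_univ, true_and]
    exact G.not_isDiag_of_mem_edgeSet (by simpa using he)
  rw [Finset.prod_mul_distrib, Finset.prod_mul_distrib, Finset.prod_const, Finset.prod_const,
    Finset.card_sdiff_of_subset hsub, card_E0]
  unfold wt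
  rw [Set.ncard_eq_toFinset_card']
  ring

lemma Ex_one (p : ℝ) : Ex p (fun _ : SimpleGraph (Fin n) => 1) = 1 := by
  have := prod_formula (n := n) p (fun _ => 1) (fun _ => 1)
  simpa [Ex] using this

lemma Pr_compl (p : ℝ) (Q : SimpleGraph (Fin n) → Prop) :
    Pr n p (fun G => ¬ Q G) = 1 - Pr n p Q := by
  rw [Pr_eq, Pr_eq, eq_sub_iff_add_eq, ← Ex_add]
  refine Eq.trans ?_ (Ex_one (n := n) p)
  congr 1
  funext G
  by_cases h : Q G <;> simp [h]

lemma Pr_contains (p : ℝ) (F : Finset (Sym2 (Fin n))) (hF : F ⊆ E0 n) :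
    Pr n p (fun G => ∀ e ∈ F, e ∈ G.edgeSet) = p ^ F.card := by
  have h := prod_formula (n := n) p (fun _ => 1) (fun e => if e ∈ F then 0 else 1)
  have h2 : ∏ e ∈ E0 n, (p * 1 + (1 - p) * (if e ∈ F then 0 else 1)) = p ^ F.card := by
    have : ∀ e, (p * 1 + (1 - p) * (if e ∈ F then (0 : ℝ) else 1)) = if e ∈ F then p else 1 := by
      intro e; split_ifs <;> ring
    simp only [this]
    rw [Finset.prod_ite_mem, Finset.inter_eq_right.2 hF, Finset.prod_const]
  rw [← h2, ← h, Pr_eq]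
  refine Finset.sum_congr rfl fun G _ => ?_
  congr 1
  rw [Finset.prod_const_one, one_mul]
  beta_reduce
  split_ifs with hG
  · refine (Finset.prod_eq_one fun e he => ?_).symm
    rw [if_neg]
    intro heF
    exact (Finset.mem_sdiff.1 he).2 (by simpa using hG e heF)
  · push Not at hG
    obtain ⟨e, he, he2⟩ := hG
    symm
    exact Finset.prod_eq_zero (i := e) (Finset.mem_sdiff.2 ⟨hF he, by simpa using he2⟩)
      (if_pos he)

lemma Pr_avoids {p : ℝ} (h0 : 0 ≤ p) (h1 : p ≤ 1) (F : Finset (Sym2 (Fin n))) :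
    (1 - p) ^ F.card ≤ Pr n p (fun G => ∀ e ∈ F, e ∉ G.edgeSet) := by
  have h := prod_formula (n := n) p (fun e => if e ∈ F then 0 else 1) (fun _ => 1)
  have h2 : ∏ e ∈ E0 n, (p * (if e ∈ F then 0 else 1) + (1 - p) * 1) =
      (1 - p) ^ (E0 n ∩ F).card := by
    have : ∀ e, (p * (if e ∈ F then (0 : ℝ) else 1) + (1 - p) * 1) =
        if e ∈ F then 1 - p else 1 := by
      intro e; split_ifs <;> ring
    simp only [this]
    rw [Finset.prod_ite_mem, Finset.prod_const]
  have h3 : Pr n p (fun G => ∀ e ∈ F, e ∉ G.edgeSet) = (1 - p) ^ (E0 n ∩ F).card := by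
    rw [← h2, ← h, Pr_eq]
    refine Finset.sum_congr rfl fun G _ => ?_
    congr 1
    rw [Finset.prod_const_one, mul_one]
    beta_reduce
    split_ifs with hG
    · refine (Finset.prod_eq_one fun e he => ?_).symm
      rw [if_neg]
      intro heF
      exact hG e heF (by simpa using he)
    · push Not at hG
      obtain ⟨e, he, he2⟩ := hG
      symm
      exact Finset.prod_eq_zero (i := e) (by simpa using he2) (if_pos he)
  rw [h3]
  exact pow_le_pow_of_le_one (by linarith) (by linarith)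
    (Finset.card_le_card Finset.inter_subset_right)

lemma ncard_le_choose (G : SimpleGraph (Fin n)) : G.edgeSet.ncard ≤ n.choose 2 := by
  rw [← card_E0, Set.ncard_eq_toFinset_card']
  refine Finset.card_le_card fun e he => ?_
  simp only [E0, Finset.mem_filter, Finset.mem_univ, true_and]
  exact G.not_isDiag_of_mem_edgeSet (by simpa using he)

lemma wt_surgery {p : ℝ} (h0 : 0 ≤ p) (h1 : p ≤ 1) {G G' : SimpleGraph (Fin n)} (h : G ≤ G')
    (k : ℕ) (hk : G'.edgeSet.ncard ≤ G.edgeSet.ncard + k) : p ^ k * wt p G ≤ wt p G' := by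
  unfold wt
  have h2 : G.edgeSet.ncard ≤ G'.edgeSet.ncard :=
    Set.ncard_le_ncard (SimpleGraph.edgeSet_mono h)
  have h3 : p ^ k * p ^ G.edgeSet.ncard ≤ p ^ G'.edgeSet.ncard := by
    rw [← pow_add]
    exact pow_le_pow_of_le_one h0 h1 (by omega)
  have h4 : (1 - p) ^ (n.choose 2 - G.edgeSet.ncard) ≤ (1 - p) ^ (n.choose 2 - G'.edgeSet.ncard) :=
    pow_le_pow_of_le_one (by linarith) (by linarith) (by omega)
  have h5 : 0 ≤ 1 - p := by linarith
  rw [← mul_assoc]
  exact mul_le_mul h3 h4 (by positivity) (by positivity)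

end Pool.Agent.H202Z.GR
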